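import Pool.Agent.ANO5.Aut.SelfMap
import Pool.Agent.ANO5.Fin.Main

set_option autoImplicit false

open scoped UpperHalfPlane MatrixGroups Nat

open Pool.Agent.ANO2.Stmt (IsSurfaceGroup)
open Pool.Agent.ANO5.Stmt

/-- **A closed nonpositively curved locally symmetric manifold with an Anosov diffeomorphism is
finitely covered by a torus**, up to classical structure theorems.

Let `M = X / Λ` be a closed manifold with a finite cover `M' = S₁ × ⋯ × S_r × N × T^k`
(`IsFinitelyCovered`), `r > 0` or `dim N > 0`, where `S_i = Γ_i \ ℍ` are closed oriented hyperbolic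
surfaces and `N = W / G` is a closed manifold of nonpositive curvature (`IsHadamard`: global
coordinates `crd`, an invariant norm `nrm` and the geodesics `geo` of the universal cover `W`).  Let
the fundamental group `G` of `N` have trivial centre (`hc`), no direct factor isomorphic to the
fundamental group of one of the `S_i` (`hf`), and let every automorphism of `G` have a power `α^n`,
`n > 0`, which is inner (`hR`: `Out G` is a torsion group).  All this is true, by Mostow's rigidity
theorem, if `N` is locally symmetric without flat and surface factors.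

Let `F` be (a lift to the universal cover `X = ℍ^r × W × ℝ^k` of) any `C¹` Anosov diffeomorphism of
`M`, transitive or not.  Then some power `F^m`, `m > 0`, lifts to `M'` (`IsCoverMap`).  The
components `f_i = compS (F^m)^(r!) x i` of `F^(m r!)` in the surfaces `S_i` are continuous, and
there is an automorphism `e` of the fundamental group of `S_i` (the image of `Γ_i` in the
permutations of `ℍ`) with `f_i (γ z) = e(γ) f_i(z)`; so `f_i` is (a lift of) a homotopy equivalence
`S_i → S_i`.  It is impossible that all these components have a power homotopic to a homeomorphism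
in Thurston normal form (`HasNormalForm`).  For `r = 0` this says that there is no Anosov
diffeomorphism of `M`.

By the theorems of Dehn-Nielsen-Baer and Thurston the components in the surfaces always have this
property.  Every closed nonpositively curved locally symmetric manifold is flat or has such a finite
cover (Eberlein).  So an `M` of this kind which carries an Anosov diffeomorphism is flat, hence
finitely covered by a torus (Bieberbach). -/
theorem Pool.Agent.Results.MP_5e77d9_an.NoAnosovNonpositive.result
    (W : Type) [MetricSpace W] (d : ℕ) (crd : W ≃ₜ (Fin d → ℝ)) (G : Subgroup (Equiv.Perm W))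
    (nrm : W → (Fin d → ℝ) → ℝ) (geo : ℝ → W → W → W) (hN : IsHadamard crd G nrm geo)
    (r k : ℕ) (hrd : 0 < r ∨ 0 < d)
    (Γ : Fin r → Subgroup SL(2, ℝ)) (hΓ : ∀ i, IsSurfaceGroup (Γ i))
    (hc : Subgroup.center G = ⊥)
    (hf : ∀ (i : Fin r) (K : Type) [Group K],
      IsEmpty (G ≃* ((Γ i).map (MulAction.toPermHom SL(2, ℝ) ℍ)) × K))
    (hR : ∀ α : MulAut G, ∃ n : ℕ, 0 < n ∧ ∃ δ : G, ∀ g, (α ^ n) g = δ * g * δ⁻¹)
    (Λ : Subgroup (Equiv.Perm (X W r k))) (hΛ : IsFinitelyCovered crd Γ G Λ)
    (F : X W r k → X W r k) (hF : IsAnosov crd Λ nrm F) :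
    ∃ m : ℕ, 0 < m ∧ IsCoverMap Γ G F^[m] ∧ ∀ x : X W r k,
      (∀ i, Continuous (compS (F^[m])^[r !] x i) ∧
        ∃ e : MulAut ((Γ i).map (MulAction.toPermHom SL(2, ℝ) ℍ)), ∀ γ z,
          compS (F^[m])^[r !] x i (γ.1 z) = (e γ).1 (compS (F^[m])^[r !] x i z)) ∧
      ¬ ∀ i, HasNormalForm (Γ i) (compS (F^[m])^[r !] x i) :=
  Pool.Agent.ANO5.Aut.final_selfMap Pool.Agent.ANO5.mainStatement hN hrd hΓ hc hf hR hΛ hF
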